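import Pool.Agent.Y317.LE.Code2

/-!
# Doubly even codes with covering radius 4 (project LEE of helper813, CODE)
-/

set_option autoImplicit false

namespace Pool.Agent.Y317.LE

open Finset Pool.Agent.Y813.LE

variable {r : ℕ}

lemma even_of_lt {A : AddSubgroup (Fin r → ℤ)} (h : Hyp A) (hr : r < 24) {a : Fin r → ℤ}
    (ha : a ∈ A) : ∃ b : Fin r → ℤ, a = fun i => 2 * b i := by
  have heven : ∀ i, Even (a i) := by
    intro i
    by_contra hi
    rw [Int.not_even_iff_odd] at hi
    have := odd_rank h ha (all_odd h ha hi)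
    omega
  choose b hb using heven
  refine ⟨b, ?_⟩
  ext i
  rw [hb]
  ring

lemma quarter {A : AddSubgroup (Fin r → ℤ)} (h : Hyp A) {b : Fin r → ℤ}
    (ha : (fun i => 2 * b i) ∈ A) (hb : (fun i => ((b i : ℤ) : ZMod 2)) = 0) :
    ∃ d : Fin r → ℤ, (∀ i, b i = 2 * d i) ∧ Even (∑ i, d i) := by
  have h1 : ∀ i, ∃ d : ℤ, b i = 2 * d := by
    intro i
    have h2 := congrFun hb i
    obtain ⟨d, hd⟩ := (ZMod.intCast_zmod_eq_zero_iff_dvd (b i) 2).1 h2
    push_cast at hd
    exact ⟨d, hd⟩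
  choose d hd using h1
  refine ⟨d, hd, fourD_even h ?_⟩
  convert ha using 1
  ext i
  rw [hd]
  ring

lemma sum_ext {n : ℕ} (hr : r ≤ n) (f : Fin r → ℤ) :
    ∑ i : Fin n, (if h : i.val < r then f ⟨i.val, h⟩ else 0) = ∑ i, f i := by
  obtain ⟨k, rfl⟩ := Nat.exists_eq_add_of_le hr
  rw [Fin.sum_univ_add]
  simp

/-- extension by zero -/
def ez (r n : ℕ) : (Fin r → ℤ) →+ (Fin n → ℤ) where
  toFun a := fun i => if h : i.val < r then a ⟨i.val, h⟩ else 0
  map_zero' := by
    ext i
    simp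
  map_add' a b := by
    ext i
    simp only [Pi.add_apply]
    split_ifs <;> simp

lemma ez_sq {n : ℕ} (hr : r ≤ n) (a : Fin r → ℤ) : ∑ i, ez r n a i ^ 2 = ∑ i, a i ^ 2 := by
  rw [← sum_ext hr (fun i => a i ^ 2)]
  apply Finset.sum_congr rfl
  intro i _
  unfold ez
  simp only [AddMonoidHom.coe_mk, ZeroHom.coe_mk]
  split_ifs <;> simp

/-- change of sign of one coordinate -/
def fl (o : Fin r) : (Fin r → ℤ) →+ (Fin r → ℤ) where
  toFun a := fun i => if i = o then - a i else a i
  map_zero' := by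
    ext i
    simp
  map_add' a b := by
    ext i
    simp only [Pi.add_apply]
    split_ifs <;> ring

lemma fl_sq (o : Fin r) (a : Fin r → ℤ) : ∑ i, fl o a i ^ 2 = ∑ i, a i ^ 2 := by
  apply Finset.sum_congr rfl
  intro i _
  unfold fl
  simp only [AddMonoidHom.coe_mk, ZeroHom.coe_mk]
  split_ifs <;> ring

lemma fl_sum (o : Fin r) (a : Fin r → ℤ) : ∑ i, fl o a i = ∑ i, a i - 2 * a o := by
  rw [sum_upd (fun i => fl o a i) a o]
  · unfold fl
    simp only [AddMonoidHom.coe_mk, ZeroHom.coe_mk]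
    simp
    ring
  · intro i hi
    unfold fl
    simp only [AddMonoidHom.coe_mk, ZeroHom.coe_mk]
    rw [if_neg hi]

/-- small rank -/
lemma small {A : AddSubgroup (Fin r → ℤ)} (h : Hyp A) (hr : r ≤ 4) :
    ∃ ψ : (Fin r → ℤ) →+ (Fin 8 → ℤ), (∀ a, ∑ i, ψ a i ^ 2 = ∑ i, a i ^ 2) ∧ ∀ a ∈ A, T8 (ψ a) := by
  refine ⟨ez r 8, fun a => ez_sq (by omega) a, ?_⟩
  intro a ha
  obtain ⟨b, rfl⟩ := even_of_lt h (by omega) ha
  have hc : (fun i => ((b i : ℤ) : ZMod 2)) ∈ CC A := mem_CC.2 ⟨b, ha, fun i => rfl⟩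
  have hc0 : (fun i => ((b i : ℤ) : ZMod 2)) = 0 := by
    by_contra hne
    have h1 := (weight h hc hne).1
    have h2 := hammingNorm_le_card_fintype (x := fun i => ((b i : ℤ) : ZMod 2))
    rw [Fintype.card_fin] at h2
    omega
  obtain ⟨d, hd, k, hk⟩ := quarter h ha hc0
  constructor
  · left
    intro i
    unfold ez
    simp only [AddMonoidHom.coe_mk, ZeroHom.coe_mk]
    split_ifs
    · rw [hd]
      exact ⟨d _, by ring⟩
    · exact dvd_zero _
  · have e : ∑ i, ez r 8 (fun i => 2 * b i) i = ∑ i, 2 * b i :=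
      sum_ext (r := r) (n := 8) (by omega) (fun i => 2 * b i)
    rw [e]
    refine ⟨k, ?_⟩
    calc ∑ i, 2 * b i = 4 * ∑ i, d i := by
          rw [Finset.mul_sum]
          apply Finset.sum_congr rfl
          intro i _
          rw [hd]
          ring
      _ = 8 * k := by rw [hk]; ring

lemma norm_lt {c : Fin r → ZMod 2} {i : Fin r} (hi : c i = 0) : hammingNorm c < r := by
  unfold hammingNorm
  calc _ < (univ : Finset (Fin r)).card :=
        Finset.card_lt_card (Finset.filter_ssubset.2 ⟨i, mem_univ i, by simpa using hi⟩)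
    _ = r := by simp

lemma eight_type {A : AddSubgroup (Fin 8 → ℤ)} (h : Hyp A) {a : Fin 8 → ℤ} (ha : a ∈ A) :
    ((∀ i, 4 ∣ a i) ∧ 8 ∣ ∑ i, a i) ∨ ∀ i, 4 ∣ a i - 2 := by
  obtain ⟨b, rfl⟩ := even_of_lt h (by omega) ha
  have hc : (fun i => ((b i : ℤ) : ZMod 2)) ∈ CC A := mem_CC.2 ⟨b, ha, fun i => rfl⟩
  by_cases hc0 : (fun i => ((b i : ℤ) : ZMod 2)) = 0
  · left
    obtain ⟨d, hd, k, hk⟩ := quarter h ha hc0
    refine ⟨fun i => ⟨d i, by beta_reduce; rw [hd]; ring⟩, k, ?_⟩
    calc ∑ i, 2 * b i = 4 * ∑ i, d i := by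
          rw [Finset.mul_sum]
          apply Finset.sum_congr rfl
          intro i _
          rw [hd]
          ring
      _ = 8 * k := by rw [hk]; ring
  · right
    have h1 := (weight h hc hc0).1
    intro i
    have h3 : ((b i : ℤ) : ZMod 2) ≠ 0 := by
      intro e
      have h2 := norm_lt (c := fun i => ((b i : ℤ) : ZMod 2)) e
      omega
    have h4 : ¬ (2 : ℤ) ∣ b i := by
      intro hd
      exact h3 ((ZMod.intCast_zmod_eq_zero_iff_dvd (b i) 2).2 (by exact_mod_cast hd))
    beta_reduce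
    omega

/-- rank 8 -/
lemma eight {A : AddSubgroup (Fin 8 → ℤ)} (h : Hyp A) :
    ∃ ψ : (Fin 8 → ℤ) →+ (Fin 8 → ℤ), (∀ a, ∑ i, ψ a i ^ 2 = ∑ i, a i ^ 2) ∧ ∀ a ∈ A, T8 (ψ a) := by
  by_cases hex : ∃ a0 ∈ A, (∀ i, 4 ∣ a0 i - 2) ∧ ¬ 8 ∣ ∑ i, a0 i
  · obtain ⟨a0, ha0, h0, h8⟩ := hex
    refine ⟨fl 0, fun a => fl_sq 0 a, ?_⟩
    intro a ha
    unfold T8
    rw [fl_sum]
    rcases eight_type h ha with ⟨h1, h2⟩ | h1
    · constructor
      · left
        intro i
        unfold fl
        simp only [AddMonoidHom.coe_mk, ZeroHom.coe_mk]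
        have := h1 i
        split_ifs
        · exact (dvd_neg).2 this
        · exact this
      · have := h1 0
        omega
    · constructor
      · right
        intro i
        unfold fl
        simp only [AddMonoidHom.coe_mk, ZeroHom.coe_mk]
        have := h1 i
        split_ifs <;> omega
      · -- the class of the sum
        have h3 : ∀ i, ∃ k, a0 i = 2 + 4 * k := by
          intro i
          obtain ⟨k, hk⟩ := h0 i
          exact ⟨k, by linarith⟩
        choose k hk using h3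
        have h4 : ∑ i, a0 i = 16 + 4 * ∑ i, k i := by
          rw [Finset.mul_sum, Finset.sum_congr rfl fun i _ => hk i, Finset.sum_add_distrib]
          simp
        have h5 : ∀ i, ∃ d, a i - a0 i = 4 * d := by
          intro i
          obtain ⟨l, hl⟩ := h1 i
          exact ⟨l - k i, by linarith [hk i]⟩
        choose d hd using h5
        have h6 : (fun i => 4 * d i) ∈ A := by
          have := A.sub_mem ha ha0
          convert this using 1
          ext i
          rw [Pi.sub_apply, hd]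
        obtain ⟨m, hm⟩ := fourD_even h h6
        have h7 : ∑ i, a i = ∑ i, a0 i + 4 * ∑ i, d i := by
          rw [Finset.mul_sum, ← Finset.sum_add_distrib]
          apply Finset.sum_congr rfl
          intro i _
          linarith [hd i]
        have h9 := h1 0
        rw [hm] at h7
        rw [h7]
        rw [h4] at h8 ⊢
        omega
  · push Not at hex
    refine ⟨AddMonoidHom.id _, fun a => rfl, ?_⟩
    intro a ha
    rcases eight_type h ha with ⟨h1, h2⟩ | h1
    · exact ⟨Or.inl h1, h2⟩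
    · exact ⟨Or.inr h1, hex a ha h1⟩

/-- inner products -/
lemma inner8 {A : AddSubgroup (Fin r → ℤ)} (h : Hyp A) {a b : Fin r → ℤ} (ha : a ∈ A)
    (hb : b ∈ A) : 8 ∣ ∑ i, a i * b i := by
  have h1 := h.d16 _ ha
  have h2 := h.d16 _ hb
  have h3 := h.d16 _ (A.add_mem ha hb)
  have e : ∑ i, (a + b) i ^ 2 = ∑ i, a i ^ 2 + ∑ i, b i ^ 2 + 2 * ∑ i, a i * b i := by
    rw [Finset.mul_sum, ← Finset.sum_add_distrib, ← Finset.sum_add_distrib]
    apply Finset.sum_congr rfl
    intro i _
    rw [Pi.add_apply]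
    ring
  rw [e] at h3
  omega

/-- the code of rank 24 is its own orthogonal complement -/
lemma self_dual {A : AddSubgroup (Fin r → ℤ)} (h : Hyp A) (hr : r = 24)
    (y : Fin r → ZMod 2) (hy : ∀ c ∈ CC A, ∑ i, c i * y i = 0) : y ∈ CC A := by
  classical
  have : Fact (Nat.Prime 2) := ⟨Nat.prime_two⟩
  have hcard : Nat.card (CC A) = 2 ^ 12 := by
    have h1 := count h
    subst hr
    rw [show Nat.choose 24 3 = 2024 by decide] at h1
    omega
  set S : Submodule (ZMod 2) (Fin r → ZMod 2) := AddSubgroup.toZModSubmodule 2 (CC A) with hS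
  have hSm : ∀ x, x ∈ S ↔ x ∈ CC A := fun x => Iff.rfl
  have hfin : Module.finrank (ZMod 2) S = 12 := by
    have h1 := Module.natCard_eq_pow_finrank (K := ZMod 2) (V := S)
    have h2 : Nat.card S = 2 ^ 12 := hcard
    rw [h2, Nat.card_eq_fintype_card, ZMod.card] at h1
    exact (Nat.pow_right_injective le_rfl h1).symm
  set D := S.map (dotProductEquiv (ZMod 2) (Fin r)).toLinearMap with hD
  have hDfin : Module.finrank (ZMod 2) D = 12 := by
    rw [← hfin]
    exact LinearEquiv.finrank_map_eq _ _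
  have hDmem : ∀ x : Fin r → ZMod 2, x ∈ D.dualCoannihilator ↔ ∀ c ∈ CC A, ∑ i, c i * x i = 0 := by
    intro x
    rw [Submodule.mem_dualCoannihilator]
    constructor
    · intro hx c hc
      exact hx (dotProductEquiv (ZMod 2) (Fin r) c) (Submodule.mem_map_of_mem ((hSm c).2 hc))
    · rintro hx _ ⟨c, hc, rfl⟩
      exact hx c ((hSm c).1 hc)
  have hle : S ≤ D.dualCoannihilator := by
    intro x hx
    rw [hDmem]
    intro c hc
    obtain ⟨b, hb, hbx⟩ := mem_CC.1 ((hSm x).1 hx)
    obtain ⟨b', hb', hbc⟩ := mem_CC.1 hc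
    have h1 := inner8 h hb' hb
    have h2 : ∑ i, 2 * b' i * (2 * b i) = 4 * ∑ i, b' i * b i := by
      rw [Finset.mul_sum]
      apply Finset.sum_congr rfl
      intro i _
      ring
    rw [h2] at h1
    have h3 : (2 : ℤ) ∣ ∑ i, b' i * b i := by omega
    have h4 := (ZMod.intCast_zmod_eq_zero_iff_dvd (∑ i, b' i * b i) 2).2 (by exact_mod_cast h3)
    push_cast at h4
    rw [← h4]
    apply Finset.sum_congr rfl
    intro i _
    rw [hbx, hbc]
  have htot := Subspace.finrank_add_finrank_dualCoannihilator_eq D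
  rw [hDfin, Module.finrank_pi, Fintype.card_fin] at htot
  have heq : S = D.dualCoannihilator := by
    apply Submodule.eq_of_le_of_finrank_eq hle
    omega
  rw [← hSm, heq, hDmem]
  exact hy

/-- rank 24 -/
lemma r24 {A : AddSubgroup (Fin r → ℤ)} (h : Hyp A) (hr : r = 24) (y : Fin r → ℤ)
    (hp : ∀ i j, 2 ∣ y i - y j) (hy : ∀ a ∈ A, 8 ∣ ∑ i, y i * a i) : y ∈ A := by
  obtain ⟨a, ha, hle⟩ := h.cov y
  set z : Fin r → ℤ := y - a with hz
  have hzy : y = z + a := by rw [hz]; abel
  have hzp : ∀ i j, 2 ∣ z i - z j := by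
    intro i j
    have h1 := hp i j
    have h2 := h.par a ha i j
    rw [hz, Pi.sub_apply, Pi.sub_apply]
    omega
  have hzo : ∀ a' ∈ A, 8 ∣ ∑ i, z i * a' i := by
    intro a' ha'
    have h1 := hy a' ha'
    have h2 := inner8 h ha ha'
    have e : ∑ i, z i * a' i = ∑ i, y i * a' i - ∑ i, a i * a' i := by
      rw [← Finset.sum_sub_distrib]
      apply Finset.sum_congr rfl
      intro i _
      rw [hz, Pi.sub_apply]
      ring
    rw [e]
    exact dvd_sub h1 h2
  have hzn : ∑ i, z i ^ 2 ≤ 16 := hle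
  suffices hzA : z ∈ A by
    rw [hzy]
    exact A.add_mem hzA ha
  -- `z` is even
  have heven : ∀ i, Even (z i) := by
    intro i
    by_contra hi
    rw [Int.not_even_iff_odd] at hi
    have h1 : ∀ j, 1 ≤ z j ^ 2 := by
      intro j
      obtain ⟨k, hk⟩ := hi
      obtain ⟨m, hm⟩ := hzp i j
      have : z j ≠ 0 := by omega
      have := sq_pos_of_ne_zero this
      omega
    have h2 : (r : ℤ) ≤ ∑ j, z j ^ 2 := by
      calc (r : ℤ) = ∑ _j : Fin r, (1 : ℤ) := by simp
        _ ≤ _ := Finset.sum_le_sum fun j _ => h1 j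
    omega
  choose b hb using heven
  have hzb : z = fun i => 2 * b i := by
    ext i
    rw [hb]
    ring
  have hbn : ∑ i, b i ^ 2 ≤ 4 := by
    have e : ∑ i, z i ^ 2 = 4 * ∑ i, b i ^ 2 := by
      rw [Finset.mul_sum, hzb]
      apply Finset.sum_congr rfl
      intro i _
      ring
    omega
  have hbC : (fun i => ((b i : ℤ) : ZMod 2)) ∈ CC A := by
    apply self_dual h hr
    intro c hc
    obtain ⟨b', hb', hbc⟩ := mem_CC.1 hc
    have h1 := hzo _ hb'
    rw [hzb] at h1
    have h2 : ∑ i, 2 * b i * (2 * b' i) = 4 * ∑ i, b i * b' i := by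
      rw [Finset.mul_sum]
      apply Finset.sum_congr rfl
      intro i _
      ring
    rw [h2] at h1
    have h3 : (2 : ℤ) ∣ ∑ i, b i * b' i := by omega
    have h4 := (ZMod.intCast_zmod_eq_zero_iff_dvd (∑ i, b i * b' i) 2).2 (by exact_mod_cast h3)
    push_cast at h4
    rw [← h4]
    apply Finset.sum_congr rfl
    intro i _
    rw [← hbc, mul_comm]
  have hb0 : (fun i => ((b i : ℤ) : ZMod 2)) = 0 := by
    by_contra hne
    have h1 := (weight h hbC hne).1
    have h2 : ((hammingNorm (fun i => ((b i : ℤ) : ZMod 2)) : ℕ) : ℤ) ≤ ∑ i, b i ^ 2 := by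
      rw [norm_eq_sum]
      apply Finset.sum_le_sum
      intro i _
      split_ifs with hi
      · positivity
      · have : b i ≠ 0 := by
          intro e
          apply hi
          rw [e]
          rfl
        have := sq_pos_of_ne_zero this
        omega
    omega
  have h1 : ∀ i, ∃ d : ℤ, b i = 2 * d := by
    intro i
    have h2 := congrFun hb0 i
    obtain ⟨d, hd⟩ := (ZMod.intCast_zmod_eq_zero_iff_dvd (b i) 2).1 h2
    push_cast at hd
    exact ⟨d, hd⟩
  choose d hd using h1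
  have hdn : ∑ i, d i ^ 2 ≤ 1 := by
    have e : ∑ i, b i ^ 2 = 4 * ∑ i, d i ^ 2 := by
      rw [Finset.mul_sum]
      apply Finset.sum_congr rfl
      intro i _
      rw [hd]
      ring
    omega
  have hd0 : ∀ i, d i = 0 := by
    intro o
    by_contra ho
    have ho1 : 1 ≤ d o ^ 2 := by
      have := sq_pos_of_ne_zero ho
      omega
    have hs := Finset.add_sum_erase Finset.univ (fun i => d i ^ 2) (Finset.mem_univ o)
    have hnn : 0 ≤ ∑ i ∈ Finset.univ.erase o, d i ^ 2 := Finset.sum_nonneg fun i _ => sq_nonneg _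
    have hz0 : ∑ i ∈ Finset.univ.erase o, d i ^ 2 = 0 := by
      omega
    have hrest : ∀ i, i ≠ o → d i = 0 := by
      intro i hi
      have := (Finset.sum_eq_zero_iff_of_nonneg fun i _ => sq_nonneg (d i)).1 hz0 i
        (Finset.mem_erase.2 ⟨hi, Finset.mem_univ i⟩)
      exact pow_eq_zero_iff two_ne_zero |>.1 this
    have hdo : d o ^ 2 = 1 := by
      omega
    -- an odd element
    obtain ⟨a', ha', hle'⟩ := h.cov (fun _ => 1)
    have hodd : ∃ j, Odd (a' j) := by
      by_contra hno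
      push Not at hno
      have h2 : ∀ j, 1 ≤ (1 - a' j) ^ 2 := by
        intro j
        have h3 := hno j
        rw [Int.not_odd_iff_even] at h3
        obtain ⟨k, hk⟩ := h3
        have : 1 - a' j ≠ 0 := by omega
        have := sq_pos_of_ne_zero this
        omega
      have h3 : (r : ℤ) ≤ ∑ j, (1 - a' j) ^ 2 := by
        calc (r : ℤ) = ∑ _j : Fin r, (1 : ℤ) := by simp
          _ ≤ _ := Finset.sum_le_sum fun j _ => h2 j
      omega
    obtain ⟨j, hj⟩ := hodd
    obtain ⟨k, hk⟩ := all_odd h ha' hj o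
    have h4 := hzo a' ha'
    have h5 : ∑ i, z i * a' i = z o * a' o := by
      apply Finset.sum_eq_single o
      · intro i _ hi
        rw [hzb]
        simp only
        rw [hd, hrest i hi]
        ring
      · intro hno
        exact absurd (Finset.mem_univ o) hno
    rw [h5, hzb] at h4
    simp only at h4
    rw [hd, hk] at h4
    have h6 : d o = 1 ∨ d o = -1 := sq_eq_sq_iff_eq_or_eq_neg.1 (by rw [hdo]; norm_num : d o ^ 2 = 1 ^ 2)
    rcases h6 with h6 | h6 <;> rw [h6] at h4 <;> omega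
  have : z = 0 := by
    rw [hzb]
    ext i
    simp only [Pi.zero_apply]
    rw [hd, hd0]
    ring
  rw [this]
  exact A.zero_mem

/-- CODE -/
theorem job : JobCode := by
  intro r A hr h1 h2 h3 h4 h5 h6
  have h : Hyp A := ⟨hr, h1, h2, h3, h4, h5, h6⟩
  have hc := count h
  have hd : (r + r.choose 3) ∣ 2 ^ r := by
    rw [← hc]
    exact ⟨Nat.card (CC A) * 2, by ring⟩
  rcases rank_cases hr hd with h7 | h7 | h7
  · exact Or.inl (small h h7)
  · subst h7
    exact Or.inl (eight h)
  · exact Or.inr ⟨h7, r24 h h7⟩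

end Pool.Agent.Y317.LE
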