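import Pool.Agent.Y813.LE.Stm

/-!
# Doubly even codes with covering radius 4 (project LEE of helper813, CODE), part 1
-/

set_option autoImplicit false

namespace Pool.Agent.Y317.LE

open Finset

variable {r : ℕ}

/-- the hypotheses of `JobCode` -/
structure Hyp (A : AddSubgroup (Fin r → ℤ)) : Prop where
  pos : 0 < r
  d16 : ∀ a ∈ A, 16 ∣ ∑ i, a i ^ 2
  n16 : ∀ a ∈ A, ∑ i, a i ^ 2 ≠ 16
  par : ∀ a ∈ A, ∀ i j, 2 ∣ a i - a j
  fo : ∀ i j, i ≠ j → Pi.single i 4 + Pi.single j 4 ∈ A ∧ Pi.single i 4 - Pi.single j 4 ∈ A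
  ei : ∀ i, Pi.single i 8 ∈ A
  cov : ∀ x : Fin r → ℤ, ∃ a ∈ A, ∑ i, (x i - a i) ^ 2 ≤ 16

lemma fourD {A : AddSubgroup (Fin r → ℤ)} (h : Hyp A) {d : Fin r → ℤ} (hd : Even (∑ i, d i)) :
    (fun i => 4 * d i) ∈ A := by
  obtain ⟨o⟩ : Nonempty (Fin r) := ⟨⟨0, h.pos⟩⟩
  have e : (fun i => 4 * d i) = ∑ i, d i • (Pi.single i 4 - Pi.single o 4 : Fin r → ℤ) +
      (∑ i, d i) • (Pi.single o 4 : Fin r → ℤ) := by
    rw [Finset.sum_smul, ← Finset.sum_add_distrib]
    ext j
    simp only [smul_sub, sub_add_cancel, Finset.sum_apply, Pi.smul_apply, smul_eq_mul]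
    rw [Finset.sum_eq_single j]
    · rw [Pi.single_eq_same]; ring
    · intro b _ hb
      rw [Pi.single_eq_of_ne' hb, mul_zero]
    · intro hj
      exact absurd (Finset.mem_univ j) hj
  rw [e]
  refine A.add_mem (A.sum_mem fun i _ => A.zsmul_mem ?_ _) ?_
  · by_cases hi : i = o
    · rw [hi, sub_self]
      exact A.zero_mem
    · exact (h.fo i o hi).2
  · obtain ⟨k, hk⟩ := hd
    have : (∑ i, d i) • (Pi.single o 4 : Fin r → ℤ) = k • (Pi.single o 8 : Fin r → ℤ) := by
      rw [hk]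
      ext j
      by_cases hj : j = o
      · subst hj
        simp
        ring
      · simp [Pi.single_eq_of_ne hj]
    rw [this]
    exact A.zsmul_mem (h.ei o) _

lemma single_sq (o : Fin r) (c : ℤ) : ∑ i, (Pi.single o c : Fin r → ℤ) i ^ 2 = c ^ 2 := by
  rw [Finset.sum_eq_single o]
  · rw [Pi.single_eq_same]
  · intro b _ hb
    rw [Pi.single_eq_of_ne hb]
    norm_num
  · intro hj
    exact absurd (Finset.mem_univ o) hj

lemma fourD_even {A : AddSubgroup (Fin r → ℤ)} (h : Hyp A) {d : Fin r → ℤ}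
    (hd : (fun i => 4 * d i) ∈ A) : Even (∑ i, d i) := by
  obtain ⟨o⟩ : Nonempty (Fin r) := ⟨⟨0, h.pos⟩⟩
  by_contra hodd
  rw [Int.not_even_iff_odd] at hodd
  have h1 : Even (∑ i, (d i - (Pi.single o 1 : Fin r → ℤ) i)) := by
    rw [Finset.sum_sub_distrib, Finset.sum_pi_single']
    simp only [Finset.mem_univ, if_true]
    exact hodd.sub_odd odd_one
  have h2 := A.sub_mem hd (fourD h h1)
  have h3 : (fun i => 4 * d i) - (fun i => 4 * (d i - (Pi.single o 1 : Fin r → ℤ) i)) =
      Pi.single o 4 := by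
    ext j
    by_cases hj : j = o
    · subst hj
      simp
      ring
    · simp [Pi.single_eq_of_ne hj]
  rw [h3] at h2
  apply h.n16 _ h2
  rw [single_sq]
  norm_num

/-- reduction of an element of `A` by `4 D_r` -/
lemma reduce {A : AddSubgroup (Fin r → ℤ)} (h : Hyp A) {a ε d : Fin r → ℤ} (ha : a ∈ A)
    (hd : ∀ i, a i = ε i + 4 * d i) (o : Fin r) :
    ε ∈ A ∨ ((fun i => ε i + (Pi.single o 4 : Fin r → ℤ) i) ∈ A ∧
      (fun i => ε i - (Pi.single o 4 : Fin r → ℤ) i) ∈ A) := by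
  rcases Int.even_or_odd (∑ i, d i) with hp | hp
  · left
    have h2 := A.sub_mem ha (fourD h hp)
    have h3 : a - (fun i => 4 * d i) = ε := by
      ext i
      rw [Pi.sub_apply, hd]
      ring
    rwa [h3] at h2
  · right
    constructor
    · have h1 : Even (∑ i, (d i - (Pi.single o 1 : Fin r → ℤ) i)) := by
        rw [Finset.sum_sub_distrib, Finset.sum_pi_single']
        simp only [Finset.mem_univ, if_true]
        exact hp.sub_odd odd_one
      have h2 := A.sub_mem ha (fourD h h1)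
      convert h2 using 1
      ext i
      rw [Pi.sub_apply, hd]
      by_cases hj : i = o
      · subst hj
        simp
        ring
      · simp [Pi.single_eq_of_ne hj]
    · have h1 : Even (∑ i, (d i + (Pi.single o 1 : Fin r → ℤ) i)) := by
        rw [Finset.sum_add_distrib, Finset.sum_pi_single']
        simp only [Finset.mem_univ, if_true]
        exact hp.add_odd odd_one
      have h2 := A.sub_mem ha (fourD h h1)
      convert h2 using 1
      ext i
      rw [Pi.sub_apply, hd]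
      by_cases hj : i = o
      · subst hj
        simp
        ring
      · simp [Pi.single_eq_of_ne hj]

lemma sum_upd (f g : Fin r → ℤ) (o : Fin r) (h : ∀ i, i ≠ o → f i = g i) :
    ∑ i, f i = ∑ i, g i + (f o - g o) := by
  rw [← Finset.add_sum_erase _ _ (Finset.mem_univ o),
    ← Finset.add_sum_erase Finset.univ g (Finset.mem_univ o),
    Finset.sum_congr rfl fun i hi => h i (Finset.ne_of_mem_erase hi)]
  ring

/-- odd elements need rank at least 24 -/
lemma odd_rank {A : AddSubgroup (Fin r → ℤ)} (h : Hyp A) {a : Fin r → ℤ} (ha : a ∈ A)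
    (hodd : ∀ i, Odd (a i)) : 24 ≤ r := by
  obtain ⟨o⟩ : Nonempty (Fin r) := ⟨⟨0, h.pos⟩⟩
  have h1 : ∀ i, ∃ e d : ℤ, a i = e + 4 * d ∧ (e = 1 ∨ e = -1) := by
    intro i
    obtain ⟨k, hk⟩ := hodd i
    rcases Int.even_or_odd k with ⟨m, hm⟩ | ⟨m, hm⟩
    · exact ⟨1, m, by rw [hk, hm]; ring, Or.inl rfl⟩
    · exact ⟨-1, m + 1, by rw [hk, hm]; ring, Or.inr rfl⟩
  choose ε d hd hε using h1
  have hε2 : ∀ i, ε i ^ 2 = 1 := by
    intro i
    rcases hε i with e | e <;> rw [e] <;> norm_num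
  have hsum : ∑ i, ε i ^ 2 = r := by
    rw [Finset.sum_congr rfl fun i _ => hε2 i]
    simp
  rcases reduce h ha hd o with h2 | ⟨h2, h3⟩
  · have e1 := h.d16 _ h2
    have e2 := h.n16 _ h2
    rw [hsum] at e1 e2
    have := h.pos
    omega
  · have key : ∃ b ∈ A, ∑ i, b i ^ 2 = (r : ℤ) + 8 := by
      rcases hε o with e | e
      · refine ⟨_, h3, ?_⟩
        rw [sum_upd _ (fun i => ε i ^ 2) o, hsum, Pi.single_eq_same, e]
        · norm_num
        · intro i hi
          rw [Pi.single_eq_of_ne hi, sub_zero]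
      · refine ⟨_, h2, ?_⟩
        rw [sum_upd _ (fun i => ε i ^ 2) o, hsum, Pi.single_eq_same, e]
        · norm_num
        · intro i hi
          rw [Pi.single_eq_of_ne hi, add_zero]
    obtain ⟨b, hb, hb2⟩ := key
    have e1 := h.d16 _ hb
    have e2 := h.n16 _ hb
    rw [hb2] at e1 e2
    have := h.pos
    omega

/-- if one coordinate is odd, all are -/
lemma all_odd {A : AddSubgroup (Fin r → ℤ)} (h : Hyp A) {a : Fin r → ℤ} (ha : a ∈ A) {i : Fin r}
    (hi : Odd (a i)) (j : Fin r) : Odd (a j) := by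
  obtain ⟨k, hk⟩ := h.par a ha i j
  obtain ⟨m, hm⟩ := hi
  exact ⟨m - k, by linarith⟩

/-- the code of the even elements -/
def CC (A : AddSubgroup (Fin r → ℤ)) : AddSubgroup (Fin r → ZMod 2) where
  carrier := {c | ∃ b : Fin r → ℤ, (fun i => 2 * b i) ∈ A ∧ ∀ i, ((b i : ℤ) : ZMod 2) = c i}
  add_mem' := by
    rintro c c' ⟨b, hb, hc⟩ ⟨b', hb', hc'⟩
    refine ⟨fun i => b i + b' i, ?_, ?_⟩
    · have := A.add_mem hb hb'
      convert this using 1
      ext i
      rw [Pi.add_apply]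
      ring
    · intro i
      rw [Pi.add_apply, ← hc, ← hc']
      push_cast
      rfl
  zero_mem' := by
    refine ⟨fun _ => 0, ?_, fun i => by simp⟩
    have : (fun _ : Fin r => (2 : ℤ) * 0) = 0 := by ext i; simp
    rw [this]
    exact A.zero_mem
  neg_mem' := by
    rintro c ⟨b, hb, hc⟩
    refine ⟨fun i => - b i, ?_, ?_⟩
    · have := A.neg_mem hb
      convert this using 1
      ext i
      rw [Pi.neg_apply]
      ring
    · intro i
      rw [Pi.neg_apply, ← hc]
      push_cast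
      rfl

lemma mem_CC {A : AddSubgroup (Fin r → ℤ)} {c : Fin r → ZMod 2} : c ∈ CC A ↔
    ∃ b : Fin r → ℤ, (fun i => 2 * b i) ∈ A ∧ ∀ i, ((b i : ℤ) : ZMod 2) = c i := Iff.rfl

lemma zmod2 (x : ZMod 2) : x = 0 ∨ x = 1 := by
  fin_cases x
  · left; rfl
  · right; rfl

/-- a short representative of a word -/
lemma short {A : AddSubgroup (Fin r → ℤ)} (h : Hyp A) {c : Fin r → ZMod 2} (hc : c ∈ CC A)
    (hc0 : c ≠ 0) : ∃ b : Fin r → ℤ, (fun i => 2 * b i) ∈ A ∧ ∀ i, ((b i : ℤ) : ZMod 2) = c i ∧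
      b i ^ 2 = if c i = 0 then 0 else 1 := by
  obtain ⟨b, hb, hbc⟩ := mem_CC.1 hc
  obtain ⟨o, ho⟩ := Function.ne_iff.1 hc0
  have ho1 : c o = 1 := (zmod2 (c o)).resolve_left ho
  -- the lift
  set t : Fin r → ℤ := fun i => if c i = 0 then 0 else 1 with ht
  have htc : ∀ i, ((t i : ℤ) : ZMod 2) = c i := by
    intro i
    rcases zmod2 (c i) with e | e
    · simp [ht, e]
    · simp [ht, e]
  have h1 : ∀ i, ∃ d : ℤ, 2 * b i = 2 * t i + 4 * d := by
    intro i
    have : ((b i - t i : ℤ) : ZMod 2) = 0 := by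
      push_cast
      rw [hbc, htc, sub_self]
    obtain ⟨d, hd⟩ := (ZMod.intCast_zmod_eq_zero_iff_dvd _ 2).1 this
    push_cast at hd
    exact ⟨d, by linarith⟩
  choose d hd using h1
  rcases reduce h hb hd o with h2 | ⟨_, h2⟩
  · refine ⟨t, h2, fun i => ⟨htc i, ?_⟩⟩
    simp only [ht]
    split_ifs <;> norm_num
  · refine ⟨fun i => t i - (Pi.single o 2 : Fin r → ℤ) i, ?_, fun i => ⟨?_, ?_⟩⟩
    · convert h2 using 1
      ext i
      by_cases hi : i = o
      · subst hi
        simp only [Pi.single_eq_same]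
        ring
      · simp only [Pi.single_eq_of_ne hi]
        ring
    · beta_reduce
      by_cases hi : i = o
      · subst hi
        rw [Pi.single_eq_same]
        push_cast
        rw [htc, show (2 : ZMod 2) = 0 from rfl, sub_zero]
      · rw [Pi.single_eq_of_ne hi, sub_zero, htc]
    · beta_reduce
      by_cases hi : i = o
      · subst hi
        rw [Pi.single_eq_same]
        simp [ht, ho1]
      · rw [Pi.single_eq_of_ne hi, sub_zero]
        simp only [ht]
        split_ifs <;> norm_num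

lemma norm_eq_sum (c : Fin r → ZMod 2) :
    ((hammingNorm c : ℕ) : ℤ) = ∑ i, (if c i = 0 then (0 : ℤ) else 1) := by
  unfold hammingNorm
  rw [Finset.card_filter]
  push_cast
  apply Finset.sum_congr rfl
  intro i _
  by_cases hi : c i = 0 <;> simp [hi]

lemma norm_cast2 (c : Fin r → ZMod 2) : ((hammingNorm c : ℕ) : ZMod 2) = ∑ i, c i := by
  have h := congrArg (fun z : ℤ => (z : ZMod 2)) (norm_eq_sum c)
  beta_reduce at h
  push_cast at h
  rw [h]
  apply Finset.sum_congr rfl
  intro i _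
  rcases zmod2 (c i) with e | e <;> simp [e]

/-- weights of the code -/
lemma weight {A : AddSubgroup (Fin r → ℤ)} (h : Hyp A) {c : Fin r → ZMod 2} (hc : c ∈ CC A)
    (hc0 : c ≠ 0) : 8 ≤ hammingNorm c ∧ 4 ∣ hammingNorm c := by
  obtain ⟨b, hb, hbc⟩ := short h hc hc0
  have h1 : ∑ i, (2 * b i) ^ 2 = 4 * (hammingNorm c : ℤ) := by
    rw [norm_eq_sum, Finset.mul_sum]
    apply Finset.sum_congr rfl
    intro i _
    rw [mul_pow, (hbc i).2]
    norm_num
  have h2 := h.d16 _ hb
  have h3 := h.n16 _ hb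
  rw [h1] at h2 h3
  have h4 : 0 < hammingNorm c := hammingNorm_pos_iff.2 hc0
  constructor <;> omega

lemma sum_zero {A : AddSubgroup (Fin r → ℤ)} (h : Hyp A) {c : Fin r → ZMod 2} (hc : c ∈ CC A) :
    ∑ i, c i = 0 := by
  by_cases hc0 : c = 0
  · simp [hc0]
  · rw [← norm_cast2]
    obtain ⟨k, hk⟩ := (weight h hc hc0).2
    rw [hk]
    push_cast
    rw [show (4 : ZMod 2) = 0 from rfl, zero_mul]

/-- covering of the words -/
lemma cover {A : AddSubgroup (Fin r → ℤ)} (h : Hyp A) (y : Fin r → ZMod 2) :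
    ∃ c ∈ CC A, hammingNorm (y - c) ≤ 4 := by
  set t : Fin r → ℤ := fun i => if y i = 0 then 0 else 1 with ht
  have htc : ∀ i, ((t i : ℤ) : ZMod 2) = y i := by
    intro i
    rcases zmod2 (y i) with e | e
    · simp [ht, e]
    · simp [ht, e]
  obtain ⟨a, ha, hle⟩ := h.cov (fun i => 2 * t i)
  have heven : ∀ i, Even (a i) := by
    intro i
    by_contra hi
    rw [Int.not_even_iff_odd] at hi
    have hall := all_odd h ha hi
    have h24 := odd_rank h ha hall
    have h1 : ∀ j, 1 ≤ (2 * t j - a j) ^ 2 := by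
      intro j
      obtain ⟨k, hk⟩ := hall j
      have : 2 * t j - a j ≠ 0 := by omega
      have := sq_pos_of_ne_zero this
      omega
    have h2 : (r : ℤ) ≤ ∑ j, (2 * t j - a j) ^ 2 := by
      calc (r : ℤ) = ∑ _j : Fin r, (1 : ℤ) := by simp
        _ ≤ _ := Finset.sum_le_sum fun j _ => h1 j
    omega
  choose b hb using heven
  refine ⟨fun i => ((b i : ℤ) : ZMod 2), ?_, ?_⟩
  · refine mem_CC.2 ⟨b, ?_, fun i => rfl⟩
    convert ha using 1
    ext i
    rw [hb]
    ring
  · have h3 : ∑ i, (2 * t i - a i) ^ 2 = 4 * ∑ i, (t i - b i) ^ 2 := by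
      rw [Finset.mul_sum]
      apply Finset.sum_congr rfl
      intro i _
      rw [hb]
      ring
    rw [h3] at hle
    have h4 : ((hammingNorm (y - fun i => ((b i : ℤ) : ZMod 2)) : ℕ) : ℤ) ≤
        ∑ i, (t i - b i) ^ 2 := by
      rw [norm_eq_sum]
      apply Finset.sum_le_sum
      intro i _
      split_ifs with hi
      · positivity
      · have : t i - b i ≠ 0 := by
          intro e
          apply hi
          rw [Pi.sub_apply, ← htc, sub_eq_zero.1 e, sub_self]
        have := sq_pos_of_ne_zero this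
        omega
    omega

end Pool.Agent.Y317.LE
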