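import Pool.Agent.Y317.LE.Code1

/-!
# Doubly even codes with covering radius 4 (project LEE of helper813, CODE), part 2: counting
-/

set_option autoImplicit false

namespace Pool.Agent.Y317.LE

open Finset

variable {r : ℕ}

lemma card_wt (r k : ℕ) :
    (Finset.univ.filter fun s : Fin r → ZMod 2 => hammingNorm s = k).card = r.choose k := by
  classical
  have h : r.choose k = (powersetCard k (univ : Finset (Fin r))).card := by
    rw [card_powersetCard, card_univ, Fintype.card_fin]
  rw [h]
  apply Finset.card_bij (fun s _ => univ.filter fun i => s i ≠ 0)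
  · intro s hs
    rw [mem_filter] at hs
    rw [mem_powersetCard]
    exact ⟨subset_univ _, hs.2⟩
  · intro s _ s' _ he
    ext i
    have h1 := congrArg (fun T => i ∈ T) he
    simp only [mem_filter, mem_univ, true_and, ne_eq, eq_iff_iff, not_iff_not] at h1
    rcases zmod2 (s i) with e | e
    · rw [e, h1.1 e]
    · rcases zmod2 (s' i) with e' | e'
      · rw [h1.2 e', e']
      · rw [e, e']
  · intro T hT
    rw [mem_powersetCard] at hT
    have h2 : (univ.filter fun i : Fin r => (if i ∈ T then (1 : ZMod 2) else 0) ≠ 0) = T := by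
      ext i
      by_cases hi : i ∈ T <;> simp [hi]
    refine ⟨fun i => if i ∈ T then 1 else 0, ?_, h2⟩
    rw [mem_filter]
    refine ⟨mem_univ _, ?_⟩
    unfold hammingNorm
    rw [h2, hT.2]

lemma card_odd (hr : 0 < r) :
    (Finset.univ.filter fun s : Fin r → ZMod 2 => ∑ i, s i = 1).card * 2 = 2 ^ r := by
  classical
  obtain ⟨o⟩ : Nonempty (Fin r) := ⟨⟨0, hr⟩⟩
  have h1 : (Finset.univ.filter fun s : Fin r → ZMod 2 => ∑ i, s i = 1).card =
      (Finset.univ.filter fun s : Fin r → ZMod 2 => ¬ ∑ i, s i = 1).card := by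
    have key : ∀ s : Fin r → ZMod 2, ∑ i, (s + Pi.single o 1 : Fin r → ZMod 2) i = ∑ i, s i + 1 := by
      intro s
      simp only [Pi.add_apply]
      rw [Finset.sum_add_distrib, Finset.sum_pi_single']
      simp
    have inv : ∀ s : Fin r → ZMod 2, s + Pi.single o 1 + Pi.single o 1 = s := by
      intro s
      rw [add_assoc, ← Pi.single_add, show (1 : ZMod 2) + 1 = 0 from rfl, Pi.single_zero, add_zero]
    apply Finset.card_bij (fun s _ => s + Pi.single o 1)
    · intro s hs
      rw [mem_filter] at hs ⊢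
      refine ⟨mem_univ _, ?_⟩
      rw [key, hs.2]
      decide
    · intro s _ s' _ he
      exact add_right_cancel he
    · intro s hs
      rw [mem_filter] at hs
      refine ⟨s + Pi.single o 1, ?_, inv s⟩
      rw [mem_filter]
      refine ⟨mem_univ _, ?_⟩
      rw [key, (zmod2 _).resolve_right hs.2, zero_add]
  have h2 := Finset.card_filter_add_card_filter_not (s := (Finset.univ : Finset (Fin r → ZMod 2)))
    (fun s : Fin r → ZMod 2 => ∑ i, s i = 1)
  rw [← h1, card_univ, Fintype.card_fun, ZMod.card, Fintype.card_fin] at h2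
  omega

theorem count {A : AddSubgroup (Fin r → ℤ)} (h : Hyp A) :
    Nat.card (CC A) * (r + r.choose 3) * 2 = 2 ^ r := by
  classical
  have hS : Nat.card {s : Fin r → ZMod 2 // hammingNorm s = 1 ∨ hammingNorm s = 3} =
      r + r.choose 3 := by
    rw [Nat.card_eq_fintype_card, Fintype.card_subtype, Finset.filter_or,
      Finset.card_union_of_disjoint, card_wt, card_wt, Nat.choose_one_right]
    rw [Finset.disjoint_filter]
    intro s _ h1 h3
    omega
  have hO : Nat.card {y : Fin r → ZMod 2 // ∑ i, y i = 1} * 2 = 2 ^ r := by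
    rw [Nat.card_eq_fintype_card, Fintype.card_subtype, card_odd h.pos]
  have e : Nat.card (CC A) *
      Nat.card {s : Fin r → ZMod 2 // hammingNorm s = 1 ∨ hammingNorm s = 3} =
      Nat.card {y : Fin r → ZMod 2 // ∑ i, y i = 1} := by
    rw [← Nat.card_prod]
    have hm : ∀ p : CC A × {s : Fin r → ZMod 2 // hammingNorm s = 1 ∨ hammingNorm s = 3},
        ∑ i, ((p.1 : Fin r → ZMod 2) + (p.2 : Fin r → ZMod 2)) i = 1 := by
      rintro ⟨⟨c, hc⟩, ⟨s, hs⟩⟩
      simp only [Pi.add_apply]
      rw [Finset.sum_add_distrib, sum_zero h hc, zero_add, ← norm_cast2]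
      rcases hs with hs | hs <;> rw [hs] <;> decide
    refine Nat.card_congr (Equiv.ofBijective (fun p => ⟨_, hm p⟩) ⟨?_, ?_⟩)
    · rintro ⟨⟨c, hc⟩, ⟨s, hs⟩⟩ ⟨⟨c', hc'⟩, ⟨s', hs'⟩⟩ heq
      simp only [Subtype.mk.injEq] at heq
      have h1 : c - c' = s' - s := by
        rw [sub_eq_sub_iff_add_eq_add, heq, add_comm]
      have h2 : c - c' = 0 := by
        by_contra hne
        have h3 := (weight h ((CC A).sub_mem hc hc') hne).1
        rw [h1, show s' - s = -s + s' by abel, ← hammingDist_eq_hammingNorm] at h3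
        have h4 := hammingDist_triangle s 0 s'
        rw [hammingDist_zero_right, hammingDist_zero_left] at h4
        omega
      have h5 : c = c' := sub_eq_zero.1 h2
      have h6 : s = s' := by
        rw [h2] at h1
        exact (sub_eq_zero.1 h1.symm).symm
      subst h5 h6
      rfl
    · rintro ⟨y, hy⟩
      obtain ⟨c, hc, hle⟩ := cover h y
      have h1 : ((hammingNorm (y - c) : ℕ) : ZMod 2) = 1 := by
        rw [norm_cast2]
        simp only [Pi.sub_apply]
        rw [Finset.sum_sub_distrib, hy, sum_zero h hc, sub_zero]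
      have h2 : hammingNorm (y - c) = 1 ∨ hammingNorm (y - c) = 3 := by
        have h3 : hammingNorm (y - c) ≠ 0 := by
          intro e
          rw [e] at h1
          exact absurd h1 (by decide)
        have h4 : hammingNorm (y - c) ≠ 2 := by
          intro e
          rw [e] at h1
          exact absurd h1 (by decide)
        have h5 : hammingNorm (y - c) ≠ 4 := by
          intro e
          rw [e] at h1
          exact absurd h1 (by decide)
        omega
      refine ⟨⟨⟨c, hc⟩, ⟨y - c, h2⟩⟩, ?_⟩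
      simp only [Subtype.mk.injEq]
      abel
  rw [← hS, e, hO]

lemma rank_cases (hr : 0 < r) {k : ℕ} (h : (r + r.choose 3) ∣ 2 ^ k) :
    r ≤ 4 ∨ r = 8 ∨ r = 24 := by
  obtain ⟨m, _, hm⟩ := (Nat.dvd_prime_pow Nat.prime_two).1 h
  by_cases hr1 : r = 1
  · omega
  obtain ⟨s, rfl⟩ : ∃ s, r = s + 2 := ⟨r - 2, by omega⟩
  have h6 : 6 * (s + 2).choose 3 = (s + 2) * (s + 1) * s := by
    have := Nat.descFactorial_eq_factorial_mul_choose (s + 2) 3
    simp only [Nat.descFactorial_succ, Nat.descFactorial_zero, Nat.factorial] at this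
    have e1 : s + 2 - 2 = s := by omega
    have e2 : s + 2 - 1 = s + 1 := by omega
    rw [e1, e2] at this
    simp at this
    rw [show (6 : ℕ) = 3 * 2 by norm_num, ← this]
    ring
  have key : (s + 2) * (s ^ 2 + s + 6) = 3 * 2 ^ (m + 1) := by
    rw [pow_succ 2 m, ← hm]
    nlinarith
  obtain ⟨a, q, hq, hs⟩ := Nat.exists_eq_two_pow_mul_odd (n := s + 2) (by omega)
  have odd_dvd : ∀ q : ℕ, Odd q → q ∣ 3 * 2 ^ (m + 1) → q = 1 ∨ q = 3 := by
    intro q hq hd
    have h1 : Nat.Coprime q (2 ^ (m + 1)) :=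
      Nat.Coprime.pow_right _ (Nat.Coprime.symm (Nat.coprime_two_left.2 hq))
    exact (Nat.dvd_prime Nat.prime_three).1 (h1.dvd_of_dvd_mul_right hd)
  have hq3 : q = 1 ∨ q = 3 := by
    apply odd_dvd q hq
    rw [← key, hs, mul_assoc]
    exact (Dvd.intro_left _ rfl : q ∣ 2 ^ a * q).trans (Dvd.intro _ (mul_assoc _ _ _))
  rcases Nat.lt_or_ge a 4 with ha | ha
  · rcases hq3 with rfl | rfl
    · interval_cases a <;> omega
    · interval_cases a
      · omega
      · -- r = 6
        have : s = 4 := by omega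
        subst this
        exfalso
        have h13 : 13 ∣ 2 ^ m := by
          rw [← hm]
          decide
        have := (by norm_num : Nat.Prime 13).dvd_of_dvd_pow h13
        omega
      · have : s = 10 := by omega
        subst this
        exfalso
        have h29 : 29 ∣ 2 ^ m := by
          rw [← hm]
          decide
        have := (by norm_num : Nat.Prime 29).dvd_of_dvd_pow h29
        omega
      · omega
  · exfalso
    obtain ⟨t, ht⟩ : ∃ t, s + 2 = 16 * t := by
      obtain ⟨b, rfl⟩ : ∃ b, a = 4 + b := ⟨a - 4, by omega⟩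
      exact ⟨2 ^ b * q, by rw [hs, pow_add]; ring⟩
    have ht1 : 1 ≤ t := by omega
    obtain ⟨u, rfl⟩ : ∃ u, t = u + 1 := ⟨t - 1, by omega⟩
    have hs' : s = 16 * u + 14 := by omega
    subst hs'
    have e1 : (16 * u + 14) ^ 2 + (16 * u + 14) + 6 = 8 * (2 * (16 * u ^ 2 + 29 * u + 13) + 1) := by
      ring
    rw [e1] at key
    have h2 := odd_dvd (2 * (16 * u ^ 2 + 29 * u + 13) + 1) ⟨_, rfl⟩ (by
      rw [← key]
      exact ⟨(16 * u + 14 + 2) * 8, by ring⟩)
    rcases h2 with h2 | h2
    · nlinarith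
    · nlinarith

end Pool.Agent.Y317.LE
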