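import Pool.Agent.Y813.LE.Stm2
import Pool.Agent.Y813.RL.Tube5

/-!
# Top walls (project LEE of helper813, GEO and GEO0)
-/

set_option autoImplicit false

namespace Pool.Agent.Y317.LE

open Filter Topology Pool.Agent.Y813.RL Pool.Agent.Y813.LE

noncomputable section

variable {r : ℕ} {G : Matrix (Fin r) (Fin r) ℤ}

lemma nonneg (h : PosD G) (x : Fin r → ℝ) : 0 ≤ bf G x x := by
  by_cases hx : x = 0
  · simp [hx, bf]
  · exact (h.pos x hx).le

/-- parallelogram -/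
lemma para (h : PosD G) (x v : Fin r → ℝ) : bf G v v ≤ 2 * bf G (x + v) (x + v) + 2 * bf G x x := by
  have h1 := nonneg h (x + (x + v))
  have h2 : bf G (x + (x + v)) (x + (x + v)) =
      2 * bf G (x + v) (x + v) + 2 * bf G x x - bf G v v := by
    simp only [bf_add_left, bf_add_right, bf_comm h.symm v x]
    ring
  linarith

lemma lower (h : PosD G) : ∃ c : ℝ, 0 < c ∧ ∀ x : Fin r → ℝ, c * ‖x‖ ^ 2 ≤ bf G x x := by
  by_cases hne : (Metric.sphere (0 : Fin r → ℝ) 1).Nonempty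
  · obtain ⟨x0, hx0, hmin⟩ := (isCompact_sphere (0 : Fin r → ℝ) 1).exists_isMinOn hne
      (f := fun x : Fin r → ℝ => bf G x x) (bf_contR G continuous_id continuous_id).continuousOn
    rw [mem_sphere_zero_iff_norm] at hx0
    have hx0' : x0 ≠ 0 := by
      intro e
      rw [e, norm_zero] at hx0
      exact zero_ne_one hx0
    refine ⟨bf G x0 x0, h.pos x0 hx0', ?_⟩
    intro x
    by_cases hx : x = 0
    · simp [hx, bf]
    · have hn : 0 < ‖x‖ := norm_pos_iff.2 hx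
      have h1 : ‖x‖⁻¹ • x ∈ Metric.sphere (0 : Fin r → ℝ) 1 := by
        rw [mem_sphere_zero_iff_norm, norm_smul, norm_inv, norm_norm, inv_mul_cancel₀ hn.ne']
      have h2 := hmin h1
      simp only [Set.mem_ofPred_eq] at h2
      rw [bf_smul_left, bf_smul_right] at h2
      calc bf G x0 x0 * ‖x‖ ^ 2 ≤ ‖x‖⁻¹ * (‖x‖⁻¹ * bf G x x) * ‖x‖ ^ 2 := by gcongr
        _ = bf G x x := by field_simp
  · refine ⟨1, one_pos, ?_⟩
    intro x
    have hx : x = 0 := by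
      by_contra hx
      have hn : 0 < ‖x‖ := norm_pos_iff.2 hx
      apply hne
      refine ⟨‖x‖⁻¹ • x, ?_⟩
      rw [mem_sphere_zero_iff_norm, norm_smul, norm_inv, norm_norm, inv_mul_cancel₀ hn.ne']
    simp [hx, bf]

/-- walls -/
abbrev Wl (r : ℕ) := ℤ × (ℤ × (Fin r → ℤ))

/-- `M > 0` and norm `2` -/
def IsW (G : Matrix (Fin r) (Fin r) ℤ) (w : Wl r) : Prop :=
  0 < w.1 ∧ bf G w.2.2 w.2.2 - 2 * (w.1 * w.2.1) = 2

/-- height of a wall -/
def hw (G : Matrix (Fin r) (Fin r) ℤ) (w : Wl r) (x : Fin r → ℝ) : ℝ := hgt G w.1 w.2.1 w.2.2 x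

/-- `|M x + v|^2` -/
def Nm (G : Matrix (Fin r) (Fin r) ℤ) (w : Wl r) (x : Fin r → ℝ) : ℝ :=
  bf G ((w.1 : ℝ) • x + fun i => (w.2.2 i : ℝ)) ((w.1 : ℝ) • x + fun i => (w.2.2 i : ℝ))

/-- completing the square -/
lemma hw_eq (h : PosD G) {w : Wl r} (hw' : IsW G w) (x : Fin r → ℝ) :
    hw G w x = bf G x x / 2 + (2 - Nm G w x) / (2 * (w.1 : ℝ) ^ 2) := by
  obtain ⟨hM, hv⟩ := hw'
  have hM' : (w.1 : ℝ) ≠ 0 := by exact_mod_cast hM.ne'
  have h1 : (bf G (fun i => (w.2.2 i : ℝ)) fun i => (w.2.2 i : ℝ)) = 2 + 2 * (w.1 * w.2.1) := by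
    rw [bf_intCast]
    have : bf G w.2.2 w.2.2 = 2 + 2 * (w.1 * w.2.1) := by linarith
    rw [this]
    push_cast
    ring
  unfold hw hgt Nm
  simp only [bf_add_left, bf_add_right, bf_smul_left, bf_smul_right, h1,
    bf_comm h.symm x (fun i => (w.2.2 i : ℝ))]
  field_simp
  ring

lemma hw_cont (w : Wl r) : Continuous (hw G w) := by
  unfold hw hgt
  have := bf_contR G (f := fun _ : Fin r → ℝ => fun i => (w.2.2 i : ℝ)) (g := fun x => x)
    continuous_const continuous_id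
  fun_prop

lemma qf_cont : Continuous fun x : Fin r → ℝ => bf G x x :=
  bf_contR G continuous_id continuous_id

lemma wall_bd (h : PosD G) (K : ℝ) {η : ℝ} (hη : 0 < η) : ∃ B R : ℤ, ∀ (M n : ℤ) (v : Fin r → ℤ)
    (x' : Fin r → ℝ), IsW G (M, n, v) → ‖x'‖ ≤ K → bf G x' x' / 2 + η ≤ hw G (M, n, v) x' →
      M ≤ B ∧ ∀ i, |v i| ≤ R := by
  obtain ⟨c, hc, hlow⟩ := lower h
  refine ⟨⌈1 / η⌉, ⌈2 / c + 1 + 1 / η * |K|⌉, ?_⟩
  intro M n v x' hW hx' hh
  rw [hw_eq h hW] at hh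
  obtain ⟨hM, hv⟩ := hW
  simp only at hM hv
  have hM1 : (1 : ℝ) ≤ M := by exact_mod_cast hM
  have hM0 : (0 : ℝ) < M := by linarith
  simp only at hh
  obtain ⟨Q, hQ⟩ : ∃ Q, Q = Nm G ((M, n, v) : Wl r) x' := ⟨_, rfl⟩
  rw [← hQ] at hh
  have hQ0 : 0 ≤ Q := by
    rw [hQ]
    exact nonneg h _
  have h1 : η ≤ (2 - Q) / (2 * (M : ℝ) ^ 2) := by linarith
  rw [le_div_iff₀ (by positivity)] at h1
  have hQ2 : Q ≤ 2 := by
    have : 0 ≤ η * (2 * (M : ℝ) ^ 2) := by positivity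
    linarith
  have hMη : (M : ℝ) ≤ 1 / η := by
    rw [le_div_iff₀ hη]
    nlinarith
  have hMB : M ≤ ⌈1 / η⌉ := by
    have : (M : ℝ) ≤ (⌈1 / η⌉ : ℤ) := hMη.trans (Int.le_ceil _)
    exact_mod_cast this
  refine ⟨hMB, ?_⟩
  have hnorm : ‖(M : ℝ) • x' + fun i => (v i : ℝ)‖ ≤ 2 / c + 1 := by
    have h2 := hlow ((M : ℝ) • x' + fun i => (v i : ℝ))
    have h3 : ‖(M : ℝ) • x' + fun i => (v i : ℝ)‖ ^ 2 ≤ 2 / c := by
      rw [le_div_iff₀ hc]
      have : bf G ((M : ℝ) • x' + fun i => (v i : ℝ)) ((M : ℝ) • x' + fun i => (v i : ℝ)) = Q :=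
        hQ.symm
      linarith
    nlinarith [sq_nonneg (‖(M : ℝ) • x' + fun i => (v i : ℝ)‖ - 1)]
  intro i
  have h2 := norm_le_pi_norm ((M : ℝ) • x' + fun i => (v i : ℝ)) i
  have h3 : ‖x' i‖ ≤ ‖x'‖ := norm_le_pi_norm x' i
  rw [Pi.add_apply, Pi.smul_apply, smul_eq_mul, Real.norm_eq_abs] at h2
  rw [Real.norm_eq_abs] at h3
  have h4 : |(M : ℝ) * x' i| ≤ 1 / η * |K| := by
    rw [abs_mul, abs_of_pos hM0]
    apply mul_le_mul hMη (h3.trans (hx'.trans (le_abs_self K))) (abs_nonneg _) (by positivity)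
  have h5 : |(v i : ℝ)| ≤ |(M : ℝ) * x' i + v i| + |(M : ℝ) * x' i| := by
    have := abs_sub_abs_le_abs_sub (v i : ℝ) (-((M : ℝ) * x' i))
    rw [abs_neg, sub_neg_eq_add, add_comm (v i : ℝ)] at this
    linarith
  have h6 : |(v i : ℝ)| ≤ 2 / c + 1 + 1 / η * |K| := by linarith
  have h7 : |(v i : ℝ)| ≤ ((⌈2 / c + 1 + 1 / η * |K|⌉ : ℤ) : ℝ) := h6.trans (Int.le_ceil _)
  rw [← Int.cast_abs] at h7
  exact_mod_cast h7

/-- finiteness of the high walls over a bounded set -/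
lemma fin_walls (h : PosD G) (K : ℝ) {η : ℝ} (hη : 0 < η) :
    {w : Wl r | IsW G w ∧ ∃ x' : Fin r → ℝ, ‖x'‖ ≤ K ∧ bf G x' x' / 2 + η ≤ hw G w x'}.Finite := by
  obtain ⟨B, R, hBR⟩ := wall_bd h K hη
  have hfin : (Set.Icc (0 : ℤ) B ×ˢ Set.Icc (fun _ : Fin r => -R) (fun _ => R)).Finite :=
    (Set.finite_Icc _ _).prod (Set.finite_Icc _ _)
  refine (hfin.image fun p : ℤ × (Fin r → ℤ) =>
    ((p.1, ((bf G p.2 p.2 - 2) / (2 * p.1), p.2)) : Wl r)).subset ?_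
  rintro ⟨M, n, v⟩ ⟨hW, x', hx', hh⟩
  obtain ⟨h1, h2⟩ := hBR M n v x' hW hx' hh
  obtain ⟨hM, hv⟩ := hW
  simp only at hM hv
  refine ⟨(M, v), ⟨⟨hM.le, h1⟩, ⟨fun i => (abs_le.1 (h2 i)).1, fun i => (abs_le.1 (h2 i)).2⟩⟩, ?_⟩
  have e : bf G v v - 2 = 2 * M * n := by linarith
  have e2 : (bf G v v - 2) / (2 * M) = n := by
    rw [e]
    exact Int.mul_ediv_cancel_left n (by omega)
  simp only [e2]

/-- heights with norm -/
lemma nh (x : Fin r → ℝ) (P : (Fin r → ℝ) → Prop) (h : ∀ᶠ x' in 𝓝 x, P x') :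
    ∃ ρ : ℝ, 0 < ρ ∧ ∀ x' : Fin r → ℝ, (∀ i, |x' i - x i| < ρ) → P x' := by
  obtain ⟨ρ, hρ, hP⟩ := Metric.eventually_nhds_iff.1 h
  refine ⟨ρ, hρ, fun x' hx' => hP ?_⟩
  rw [dist_pi_lt_iff hρ]
  exact hx'

/-- GEO0 -/
theorem geo0 : JobGeo0 := by
  intro r G h
  refine ⟨one_pos, by simp [bf], 1 / 4, ?_⟩
  have hc : ∀ᶠ x' : Fin r → ℝ in 𝓝 (fun _ => 0), bf G x' x' < 1 / 100 := by
    have := (qf_cont (G := G)).tendsto (fun _ => (0 : ℝ))
    apply this.eventually_lt_const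
    have : bf G (fun _ : Fin r => (0 : ℝ)) (fun _ => 0) = 0 := by simp [bf]
    rw [this]
    norm_num
  obtain ⟨ρ, hρ, hP⟩ := nh _ _ hc
  refine ⟨ρ, by norm_num, hρ, ?_⟩
  intro x' hx'
  have h1 := hP x' hx'
  have h0 := nonneg h.toPosD x'
  have e0 : hgt G 1 (-1) 0 x' = 1 := by
    unfold hgt
    simp [bf]
  rw [e0]
  refine ⟨by linarith, ?_⟩
  intro M n v hM hv hne
  have e1 := hw_eq h.toPosD (w := (M, n, v)) ⟨hM, hv⟩ x'
  have e2 : hgt G M n v x' = hw G (M, n, v) x' := rfl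
  rw [e2, e1]
  simp only
  have hQ0 : 0 ≤ Nm G (M, n, v) x' := nonneg h.toPosD _
  rcases Int.le_iff_lt_or_eq.1 hM with h2 | h2
  · -- `M ≥ 2`
    have hM2 : (2 : ℝ) ≤ M := by exact_mod_cast h2
    have h3 : (2 - Nm G (M, n, v) x') / (2 * (M : ℝ) ^ 2) ≤ 1 / 4 := by
      rw [div_le_iff₀ (by positivity)]
      nlinarith
    linarith
  · -- `M = 1`
    subst h2
    have hvne : v ≠ 0 := by
      rintro rfl
      apply hne
      rw [bf_zero_left] at hv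
      exact ⟨rfl, by omega, rfl⟩
    have hv4 : 4 ≤ bf G v v := by
      obtain ⟨N, hN⟩ := even_bf h.symm h.even v
      have h3 := h.noroot v
      have h4 : 0 < bf G v v := by
        have h5 : (fun i => (v i : ℝ)) ≠ 0 := by
          intro e
          apply hvne
          ext i
          have := congrFun e i
          rw [Pi.zero_apply] at this ⊢
          exact_mod_cast this
        have h6 := h.pos _ h5
        rw [bf_intCast] at h6
        exact_mod_cast h6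
      omega
    have h5 := para h.toPosD x' (fun i => (v i : ℝ))
    rw [bf_intCast] at h5
    have h6 : (4 : ℝ) ≤ ((bf G v v : ℤ) : ℝ) := by exact_mod_cast hv4
    have h7 : Nm G (1, n, v) x' = bf G (x' + fun i => (v i : ℝ)) (x' + fun i => (v i : ℝ)) := by
      unfold Nm
      simp
    rw [zero_add, h7]
    norm_num
    linarith

end

end Pool.Agent.Y317.LE
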