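import Pool.Agent.Y317.LE.Geo

/-!
# Top walls (project LEE of helper813, GEO)
-/

set_option autoImplicit false

namespace Pool.Agent.Y317.LE

open Filter Topology Pool.Agent.Y813.RL Pool.Agent.Y813.LE

noncomputable section

variable {r : ℕ} {G : Matrix (Fin r) (Fin r) ℤ}

lemma dense_ne (h : PosD G) (p : Fin r → ℝ) (c0 : ℝ) (hne : p ≠ 0 ∨ c0 ≠ 0) :
    IsOpen {x : Fin r → ℝ | c0 + bf G p x ≠ 0} ∧ Dense {x : Fin r → ℝ | c0 + bf G p x ≠ 0} := by
  have hcont : Continuous fun x : Fin r → ℝ => c0 + bf G p x := by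
    have := bf_contR G (f := fun _ : Fin r → ℝ => p) (g := fun x => x) continuous_const
      continuous_id
    fun_prop
  refine ⟨isOpen_ne_fun hcont continuous_const, ?_⟩
  by_cases hp : p = 0
  · have hc := hne.resolve_left (not_not.2 hp)
    have : {x : Fin r → ℝ | c0 + bf G p x ≠ 0} = Set.univ := by
      ext x
      simp [hp, bf, hc]
    rw [this]
    exact dense_univ
  · intro x
    rw [Metric.mem_closure_iff]
    intro ε hε
    by_cases hx : c0 + bf G p x = 0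
    · have hpn : 0 < ‖p‖ := norm_pos_iff.2 hp
      have hpp := h.pos p hp
      refine ⟨x + (ε / 2 / ‖p‖) • p, ?_, ?_⟩
      · show c0 + bf G p (x + (ε / 2 / ‖p‖) • p) ≠ 0
        rw [bf_add_right, bf_smul_right]
        have : 0 < ε / 2 / ‖p‖ * bf G p p := by positivity
        intro e
        linarith
      · rw [dist_eq_norm, sub_add_cancel_left, norm_neg, norm_smul, Real.norm_eq_abs,
          abs_of_pos (by positivity), div_mul_cancel₀ _ hpn.ne']
        linarith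
    · exact ⟨x, hx, by simpa using hε⟩

/-- direction of the difference of the heights -/
def pw (w w' : Wl r) : Fin r → ℝ :=
  ((w.1 : ℝ)⁻¹ • fun i => (w.2.2 i : ℝ)) - ((w'.1 : ℝ)⁻¹ • fun i => (w'.2.2 i : ℝ))

/-- constant term of the difference of the heights -/
def cw (w w' : Wl r) : ℝ := (w.1 : ℝ)⁻¹ * w.2.1 - (w'.1 : ℝ)⁻¹ * w'.2.1

lemma hw_sub (w w' : Wl r) (x : Fin r → ℝ) :
    hw G w' x - hw G w x = cw w w' + bf G (pw w w') x := by
  unfold hw hgt cw pw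
  rw [bf_sub_left, bf_smul_left, bf_smul_left]
  ring

lemma ne_wall {w w' : Wl r} (h1 : IsW G w) (h2 : IsW G w') (hne : w ≠ w') :
    pw w w' ≠ 0 ∨ cw w w' ≠ 0 := by
  by_contra hcon
  push Not at hcon
  obtain ⟨hp, hc⟩ := hcon
  apply hne
  obtain ⟨M, n, v⟩ := w
  obtain ⟨M', n', v'⟩ := w'
  obtain ⟨hM, hv⟩ := h1
  obtain ⟨hM', hv'⟩ := h2
  simp only at hM hv hM' hv'
  unfold pw at hp
  unfold cw at hc
  simp only at hp hc
  have m1 : (0 : ℝ) < M := by exact_mod_cast hM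
  have m2 : (0 : ℝ) < M' := by exact_mod_cast hM'
  have e1 := sub_eq_zero.1 hp
  have e2 := sub_eq_zero.1 hc
  have f1 : bf G ((M : ℝ)⁻¹ • fun i => (v i : ℝ)) ((M : ℝ)⁻¹ • fun i => (v i : ℝ)) =
      2 * ((M : ℝ)⁻¹) ^ 2 + 2 * ((M : ℝ)⁻¹ * n) := by
    rw [bf_smul_left, bf_smul_right, bf_intCast]
    have : bf G v v = 2 + 2 * (M * n) := by linarith
    rw [this]
    push_cast
    field_simp
  have f2 : bf G ((M' : ℝ)⁻¹ • fun i => (v' i : ℝ)) ((M' : ℝ)⁻¹ • fun i => (v' i : ℝ)) =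
      2 * ((M' : ℝ)⁻¹) ^ 2 + 2 * ((M' : ℝ)⁻¹ * n') := by
    rw [bf_smul_left, bf_smul_right, bf_intCast]
    have : bf G v' v' = 2 + 2 * (M' * n') := by linarith
    rw [this]
    push_cast
    field_simp
  rw [e1, e2, f2] at f1
  have g1 : ((M : ℝ)⁻¹) ^ 2 = ((M' : ℝ)⁻¹) ^ 2 := by linarith
  have g2 : (M : ℝ)⁻¹ = (M' : ℝ)⁻¹ :=
    (pow_left_inj₀ (by positivity) (by positivity) two_ne_zero).1 g1
  have g3 : M = M' := by
    have := inv_inj.1 g2
    exact_mod_cast this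
  subst g3
  have hM0 : (M : ℝ)⁻¹ ≠ 0 := inv_ne_zero m1.ne'
  have g4 : n = n' := by
    have := mul_left_cancel₀ hM0 e2
    exact_mod_cast this
  have g5 : v = v' := by
    ext i
    have := congrFun e1 i
    simp only [Pi.smul_apply, smul_eq_mul] at this
    have := mul_left_cancel₀ hM0 this
    exact_mod_cast this
  rw [g4, g5]

/-- rational points in open sets -/
lemma exists_rat {O : Set (Fin r → ℝ)} (hO : IsOpen O) (hne : O.Nonempty) :
    ∃ (X : Fin r → ℤ) (N : ℕ), 0 < N ∧ (fun i => (X i : ℝ) / N) ∈ O := by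
  obtain ⟨x, hx⟩ := hne
  obtain ⟨δ, hδ, hball⟩ := Metric.isOpen_iff.1 hO x hx
  obtain ⟨N, hN⟩ := exists_nat_gt (1 / δ)
  have hN0 : (0 : ℝ) < N := lt_trans (by positivity) hN
  refine ⟨fun i => ⌊(N : ℝ) * x i⌋, N, by exact_mod_cast hN0, hball ?_⟩
  rw [Metric.mem_ball, dist_pi_lt_iff hδ]
  intro i
  rw [Real.dist_eq, abs_lt]
  have h1 := Int.floor_le ((N : ℝ) * x i)
  have h2 := Int.lt_floor_add_one ((N : ℝ) * x i)
  have h3 : 1 / (N : ℝ) < δ := by
    rw [div_lt_iff₀ hN0]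
    rw [div_lt_iff₀ hδ] at hN
    linarith
  constructor
  · have : x i < (⌊(N : ℝ) * x i⌋ + 1 : ℝ) / N := by
      rw [lt_div_iff₀ hN0]
      linarith
    rw [add_div] at this
    linarith
  · have : (⌊(N : ℝ) * x i⌋ : ℝ) / N ≤ x i := by
      rw [div_le_iff₀ hN0]
      linarith
    linarith

lemma sd_cont (v : Fin r → ℤ) : Continuous fun x : Fin r → ℝ => sd G x v := by
  unfold sd
  apply bf_contR <;> fun_prop

/-- the points outside all the balls -/
def Out (G : Matrix (Fin r) (Fin r) ℤ) : Set (Fin r → ℝ) := {x | ∀ v : Fin r → ℤ, 2 < sd G x v}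

lemma fin_near (h : PosD G) (K : ℝ) :
    {v : Fin r → ℤ | ∃ x : Fin r → ℝ, ‖x‖ ≤ K ∧ sd G x v ≤ 3}.Finite := by
  obtain ⟨c, hc, hlow⟩ := lower h
  refine (Set.finite_Icc (fun _ : Fin r => -⌈3 / c + 1 + K⌉) (fun _ => ⌈3 / c + 1 + K⌉)).subset ?_
  rintro v ⟨x, hx, hs⟩
  have h1 := hlow (fun i => x i - (v i : ℝ))
  have h2 : ‖fun i => x i - (v i : ℝ)‖ ≤ 3 / c + 1 := by
    have h3 : ‖fun i => x i - (v i : ℝ)‖ ^ 2 ≤ 3 / c := by
      rw [le_div_iff₀ hc]
      have : bf G (fun i => x i - (v i : ℝ)) (fun i => x i - (v i : ℝ)) = sd G x v := rfl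
      linarith
    nlinarith [sq_nonneg (‖fun i => x i - (v i : ℝ)‖ - 1)]
  have hv : ∀ i, |v i| ≤ ⌈3 / c + 1 + K⌉ := by
    intro i
    have h4 := norm_le_pi_norm (fun i => x i - (v i : ℝ)) i
    have h5 := norm_le_pi_norm x i
    rw [Real.norm_eq_abs] at h4 h5
    have h6 : |(v i : ℝ)| ≤ 3 / c + 1 + K := by
      have h7 := abs_sub_abs_le_abs_sub (v i : ℝ) (x i)
      rw [abs_sub_comm (v i : ℝ)] at h7
      linarith
    have h7 := h6.trans (Int.le_ceil _)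
    rw [← Int.cast_abs] at h7
    exact_mod_cast h7
  exact ⟨fun i => (abs_le.1 (hv i)).1, fun i => (abs_le.1 (hv i)).2⟩

lemma out_open (h : PosD G) : IsOpen (Out G) := by
  rw [isOpen_iff_mem_nhds]
  intro x0 hx0
  have hfin := fin_near h (‖x0‖ + 1)
  have e1 : ∀ᶠ x in 𝓝 x0, ∀ v ∈ hfin.toFinset, 2 < sd G x v := by
    rw [Finset.eventually_all]
    intro v _
    exact ((sd_cont v).tendsto x0).eventually_const_lt (hx0 v)
  have e2 : ∀ᶠ x in 𝓝 x0, ‖x‖ ≤ ‖x0‖ + 1 := by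
    have := (continuous_norm (E := Fin r → ℝ)).tendsto x0
    filter_upwards [this.eventually_lt_const (show ‖x0‖ < ‖x0‖ + 1 by linarith)] with x hx
    exact hx.le
  filter_upwards [e1, e2] with x h1 h2 v
  by_cases hv : v ∈ hfin.toFinset
  · exact h1 v hv
  · rw [Set.Finite.mem_toFinset] at hv
    by_contra hcon
    push Not at hcon
    exact hv ⟨x, h2, by linarith⟩

/-- the Eichler transvections of `(1, -1, 0)` -/
lemma eichler (u b : Fin r → ℤ) (hs : G.IsSymm) {s q U N : ℤ} (hub : bf G u b = s)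
    (hb : bf G b b = 2 * q) (hu : bf G u u = 2 * U) (j : ℤ) :
    bf G ((j * (N ^ 2 - U) * N) • b + ((j * s + j ^ 2 * N ^ 2 * q * (N ^ 2 - U)) * N) • u)
      ((j * (N ^ 2 - U) * N) • b + ((j * s + j ^ 2 * N ^ 2 * q * (N ^ 2 - U)) * N) • u) -
      2 * ((1 - (j * s + j ^ 2 * N ^ 2 * q * (N ^ 2 - U)) * N ^ 2) *
        (-1 - j * (N ^ 2 - U) * s - (j * s + j ^ 2 * N ^ 2 * q * (N ^ 2 - U)) * U)) = 2 := by
  simp only [bf_add_left, bf_add_right, bf_smul_left, bf_smul_right, bf_comm hs b u, hub, hb, hu]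
  ring

end

end Pool.Agent.Y317.LE
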