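import Pool.Agent.Y317.LE.Geo2

/-!
# Top walls (project LEE of helper813, GEO)
-/

set_option autoImplicit false

namespace Pool.Agent.Y317.LE

open Filter Topology Pool.Agent.Y813.RL Pool.Agent.Y813.LE

noncomputable section

variable {r : ℕ} {G : Matrix (Fin r) (Fin r) ℤ}

/-- roots with centre outside the balls -/
lemma center (h : ER G) {u : Fin r → ℤ} {N : ℕ} (hN : 0 < N)
    (hO : (fun i => (u i : ℝ) / N) ∈ Out G) (i0 : Fin r) :
    ∃ (M n : ℤ) (v : Fin r → ℤ), IsW G (M, n, v) ∧ (fun i => -((v i : ℝ) / M)) ∈ Out G := by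
  set b : Fin r → ℤ := Pi.single i0 1 with hb
  have hb1 : ∀ i, |b i| ≤ 1 := by
    intro i
    by_cases hi : i = i0
    · subst hi
      simp [hb]
    · simp [hb, Pi.single_eq_of_ne hi]
  have hbpos : 0 < bf G b b := by
    have h5 : (fun i => (b i : ℝ)) ≠ 0 := by
      intro e
      have := congrFun e i0
      simp [hb] at this
    have h6 := h.pos _ h5
    rw [bf_intCast] at h6
    exact_mod_cast h6
  obtain ⟨q, hq⟩ := even_bf h.symm h.even b
  obtain ⟨U, hU⟩ := even_bf h.symm h.even u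
  obtain ⟨s, hs⟩ : ∃ s, bf G u b = s := ⟨_, rfl⟩
  have hq1 : 1 ≤ q := by omega
  have hN0 : (0 : ℝ) < N := by exact_mod_cast hN
  have hα : (N : ℤ) ^ 2 < U := by
    have h1 := hO 0
    unfold sd at h1
    have h2 : (fun i => (u i : ℝ) / N - (((0 : Fin r → ℤ) i : ℤ) : ℝ)) =
        ((N : ℝ)⁻¹) • (fun i => (u i : ℝ)) := by
      ext i
      simp only [Pi.zero_apply, Int.cast_zero, sub_zero, Pi.smul_apply, smul_eq_mul]
      field_simp
    rw [h2, bf_smul_left, bf_smul_right, bf_intCast, hU] at h1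
    push_cast at h1
    have h3 : 2 * (N : ℝ) ^ 2 < 2 * U := by
      have h4 : (N : ℝ)⁻¹ * ((N : ℝ)⁻¹ * (2 * U)) = 2 * U / (N : ℝ) ^ 2 := by
        field_simp
      rw [h4, lt_div_iff₀ (by positivity)] at h1
      exact h1
    have h4 : (N : ℝ) ^ 2 < U := by linarith
    exact_mod_cast h4
  set α : ℤ := (N : ℤ) ^ 2 - U with hαd
  have hα0 : α ≤ -1 := by omega
  obtain ⟨ρ, hρ, hball⟩ := Metric.isOpen_iff.1 (out_open h.toPosD) _ hO
  set C : ℤ := |α| * N ^ 2 + ∑ k, |u k| with hC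
  have hCu : ∀ i, |u i| ≤ ∑ k, |u k| := fun i =>
    Finset.single_le_sum (f := fun k => |u k|) (fun k _ => abs_nonneg _) (Finset.mem_univ i)
  obtain ⟨T, hT⟩ := exists_nat_gt (max 1 ((C : ℝ) / ρ))
  have hT1 : (1 : ℝ) < T := (le_max_left _ _).trans_lt hT
  have hT2 : (C : ℝ) / ρ < T := (le_max_right _ _).trans_lt hT
  have hT0 : (0 : ℝ) < T := by linarith
  have hTz : (1 : ℤ) ≤ T := by
    have : (1 : ℕ) < T := by exact_mod_cast hT1
    omega
  -- the index
  set c : ℤ := N ^ 2 * s with hc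
  set j : ℤ := |c| + 1 + T with hj
  have hj1 : 1 ≤ j := by
    have := abs_nonneg c
    omega
  set g : ℤ := j * s + j ^ 2 * N ^ 2 * q * α with hg
  set M : ℤ := 1 - g * N ^ 2 with hM
  have hMj : j * T ≤ M := by
    have e1 : M = 1 + j * (N ^ 2 * N ^ 2 * q * (-α) * j - c) := by
      rw [hM, hg, hc]
      ring
    have hN1 : (1 : ℤ) ≤ N ^ 2 := by
      have : (0 : ℤ) < N := by exact_mod_cast hN
      nlinarith
    have hA : (1 : ℤ) ≤ N ^ 2 * N ^ 2 * q * (-α) := by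
      have h1 : (1 : ℤ) ≤ N ^ 2 * N ^ 2 := by nlinarith
      have h2 : (1 : ℤ) ≤ N ^ 2 * N ^ 2 * q := by nlinarith
      nlinarith
    have h3 : j ≤ N ^ 2 * N ^ 2 * q * (-α) * j := by nlinarith
    have h4 : (T : ℤ) + 1 ≤ N ^ 2 * N ^ 2 * q * (-α) * j - c := by
      have := le_abs_self c
      omega
    rw [e1]
    nlinarith
  have hM0 : 0 < M := by nlinarith
  have hMr : (0 : ℝ) < M := by exact_mod_cast hM0
  have hw1 := eichler (G := G) u b h.symm hs hq hU (N := (N : ℤ)) j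
  rw [← hαd, ← hg, ← hM] at hw1
  refine ⟨M, -1 - j * α * s - g * U, (j * α * N) • b + (g * N) • u, ⟨hM0, hw1⟩, hball ?_⟩
  rw [Metric.mem_ball, dist_pi_lt_iff hρ]
  intro i
  rw [Real.dist_eq]
  have e2 : -((((((j * α * N) • b + (g * N) • u : Fin r → ℤ)) i : ℤ) : ℝ) / M) - (u i : ℝ) / N =
      -(((j * α * N ^ 2 * b i + u i : ℤ)) : ℝ) / (N * M) := by
    have e3 : (M : ℝ) = 1 - g * N ^ 2 := by
      rw [hM]
      push_cast
      ring
    simp only [Pi.add_apply, Pi.smul_apply, smul_eq_mul]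
    have e4 : (u i : ℝ) / N = (u i : ℝ) * M / (N * M) := by
      field_simp
    rw [e4, ← sub_eq_zero]
    push_cast
    have hN0' : (N : ℝ) ≠ 0 := hN0.ne'
    have hM0' : (M : ℝ) ≠ 0 := hMr.ne'
    field_simp
    rw [e3]
    ring
  rw [e2, abs_div, abs_neg, abs_of_pos (by positivity : (0 : ℝ) < N * M), div_lt_iff₀ (by positivity)]
  have e5 : |j * α * N ^ 2 * b i + u i| ≤ j * C := by
    calc |j * α * N ^ 2 * b i + u i| ≤ |j * α * N ^ 2 * b i| + |u i| := abs_add_le _ _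
      _ ≤ j * (|α| * N ^ 2) + j * ∑ k, |u k| := by
        apply add_le_add
        · rw [abs_mul, abs_mul, abs_mul, abs_of_pos (by omega : 0 < j),
            abs_of_nonneg (by positivity : (0 : ℤ) ≤ N ^ 2)]
          have := hb1 i
          have h7 : 0 ≤ j * |α| * N ^ 2 := by positivity
          nlinarith
        · have := hCu i
          have h8 : 0 ≤ ∑ k, |u k| := Finset.sum_nonneg fun k _ => abs_nonneg _
          nlinarith
      _ = j * C := by
        rw [hC]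
        ring
  have e6 : |((j * α * N ^ 2 * b i + u i : ℤ) : ℝ)| ≤ j * C := by
    rw [← Int.cast_abs]
    exact_mod_cast e5
  have e7 : (C : ℝ) < ρ * T := by
    rw [div_lt_iff₀ hρ] at hT2
    linarith
  have hjr : (0 : ℝ) < j := by exact_mod_cast (by omega : 0 < j)
  have e8 : (j : ℝ) * T ≤ M := by exact_mod_cast hMj
  have hN1 : (1 : ℝ) ≤ N := by exact_mod_cast hN
  calc |((j * α * N ^ 2 * b i + u i : ℤ) : ℝ)| ≤ j * C := e6
    _ < j * (ρ * T) := by gcongr
    _ = ρ * (j * T) := by ring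
    _ ≤ ρ * M := by gcongr
    _ ≤ ρ * (N * M) := by
      have : (M : ℝ) ≤ N * M := by nlinarith
      gcongr

/-- GEO -/
theorem geo : JobGeo := by
  intro r G h hcov
  have hpd := h.toPosD
  -- a rational point outside the balls
  obtain ⟨x0, hx0⟩ : ∃ x0 : Fin r → ℝ, x0 ∈ Out G := by
    unfold Cov at hcov
    push Not at hcov
    exact hcov
  obtain ⟨u, N0, hN0, hu⟩ := exists_rat (out_open hpd) ⟨x0, hx0⟩
  obtain ⟨i0⟩ : Nonempty (Fin r) := by
    by_contra hne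
    rw [not_nonempty_iff] at hne
    have := hx0 0
    unfold sd at this
    simp [bf] at this
    linarith
  obtain ⟨M1, n1, v1, hw1, hx1⟩ := center h hN0 hu i0
  set x1 : Fin r → ℝ := fun i => -((v1 i : ℝ) / M1) with hx1d
  have hM1 : (0 : ℝ) < M1 := by exact_mod_cast hw1.1
  have hh1 : hw G (M1, n1, v1) x1 = bf G x1 x1 / 2 + 1 / (M1 : ℝ) ^ 2 := by
    rw [hw_eq hpd hw1]
    have : Nm G (M1, n1, v1) x1 = 0 := by
      unfold Nm
      have e : ((M1 : ℝ) • x1 + fun i => (v1 i : ℝ)) = 0 := by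
        ext i
        simp only [Pi.add_apply, Pi.smul_apply, smul_eq_mul, Pi.zero_apply, hx1d]
        field_simp
        ring
      simp only
      rw [e, bf_zero_left]
    rw [this]
    simp only
    field_simp
    norm_num
  set η : ℝ := 1 / (4 * (M1 : ℝ) ^ 2) with hη
  have hη0 : 0 < η := by positivity
  have hη4 : 1 / (M1 : ℝ) ^ 2 = 4 * η := by
    rw [hη]
    field_simp
  rw [hη4] at hh1
  set S : Finset (Wl r) := (fin_walls hpd (‖x1‖ + 1) hη0).toFinset with hS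
  have hSm : ∀ w, w ∈ S ↔ IsW G w ∧ ∃ x' : Fin r → ℝ, ‖x'‖ ≤ ‖x1‖ + 1 ∧
      bf G x' x' / 2 + η ≤ hw G w x' := by
    intro w
    rw [hS, Set.Finite.mem_toFinset]
    rfl
  have hw1S : (M1, n1, v1) ∈ S := by
    rw [hSm]
    exact ⟨hw1, x1, by linarith, by linarith⟩
  -- generic points
  set P : Set (Wl r × Wl r) := {p | p.1 ∈ S ∧ p.2 ∈ S ∧ p.1 ≠ p.2} with hP
  have hPf : P.Finite := by
    refine ((S ×ˢ S).finite_toSet).subset ?_
    rintro ⟨a, b⟩ ⟨h1, h2, _⟩
    exact Finset.mem_coe.2 (Finset.mem_product.2 ⟨h1, h2⟩)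
  have hne : ∀ p ∈ P, pw p.1 p.2 ≠ 0 ∨ cw p.1 p.2 ≠ 0 := by
    rintro ⟨a, b⟩ ⟨h1, h2, h3⟩
    exact ne_wall ((hSm a).1 h1).1 ((hSm b).1 h2).1 h3
  have hVo : IsOpen (⋂ p ∈ P, {x : Fin r → ℝ | cw p.1 p.2 + bf G (pw p.1 p.2) x ≠ 0}) :=
    hPf.isOpen_biInter fun p hp => (dense_ne hpd _ _ (hne p hp)).1
  have hVd : Dense (⋂ p ∈ P, {x : Fin r → ℝ | cw p.1 p.2 + bf G (pw p.1 p.2) x ≠ 0}) :=
    dense_biInter_of_isOpen (fun p hp => (dense_ne hpd _ _ (hne p hp)).1) hPf.countable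
      fun p hp => (dense_ne hpd _ _ (hne p hp)).2
  have hUo : IsOpen (Out G ∩ ({x | bf G x x / 2 + 2 * η < hw G (M1, n1, v1) x} ∩
      Metric.ball x1 1)) := by
    refine (out_open hpd).inter (IsOpen.inter (isOpen_lt ?_ (hw_cont _)) Metric.isOpen_ball)
    have := qf_cont (G := G)
    fun_prop
  have hUn : (Out G ∩ ({x | bf G x x / 2 + 2 * η < hw G (M1, n1, v1) x} ∩
      Metric.ball x1 1)).Nonempty := by
    refine ⟨x1, hx1, ?_, Metric.mem_ball_self one_pos⟩
    show bf G x1 x1 / 2 + 2 * η < hw G (M1, n1, v1) x1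
    linarith
  obtain ⟨X, N, hN, ⟨hXO, hX1, hXb⟩, hXV⟩ := exists_rat (hUo.inter hVo)
    (hVd.inter_open_nonempty _ hUo hUn)
  set x : Fin r → ℝ := fun i => (X i : ℝ) / N with hx
  have hX1' : bf G x x / 2 + 2 * η < hw G (M1, n1, v1) x := hX1
  obtain ⟨w0, hw0S, hmax⟩ := Finset.exists_max_image S (fun w => hw G w x) ⟨_, hw1S⟩
  have hlt : ∀ w ∈ S, w ≠ w0 → hw G w x < hw G w0 x := by
    intro w hwS hne'
    refine lt_of_le_of_ne (hmax w hwS) fun e => ?_
    have h1 := Set.mem_iInter₂.1 hXV (w, w0) ⟨hwS, hw0S, hne'⟩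
    apply h1
    rw [← hw_sub, e, sub_self]
  have hW0 : IsW G w0 := ((hSm w0).1 hw0S).1
  have hx0' : bf G x x / 2 + 2 * η < hw G w0 x := hX1'.trans_le (hmax _ hw1S)
  obtain ⟨M, n, v⟩ := w0
  have hM2 : 2 ≤ M := by
    by_contra hcon
    have hM : M = 1 := by
      have := hW0.1
      simp only at this
      omega
    subst hM
    rw [hw_eq hpd hW0] at hx0'
    have h1 := hXO (-v)
    have h2 : sd G x (-v) = Nm G (1, n, v) x := by
      unfold sd Nm
      have : (fun i => x i - (((-v) i : ℤ) : ℝ)) = ((((1, n, v) : Wl r).1 : ℤ) : ℝ) • x +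
          fun i => (((1, n, v) : Wl r).2.2 i : ℝ) := by
        ext i
        simp
      rw [this]
    rw [h2] at h1
    simp only at hx0'
    norm_num at hx0'
    linarith
  -- the gap
  obtain ⟨δ, hδη, hδS, hδ0⟩ : ∃ δ : ℝ, δ < η ∧
      (∀ w ∈ S.erase (M, n, v), hw G w x + δ < hw G (M, n, v) x) ∧ 0 < δ := by
    have e1 : ∀ᶠ δ in 𝓝[>] (0 : ℝ), δ < η :=
      nhdsWithin_le_nhds (eventually_lt_nhds hη0)
    have e2 : ∀ᶠ δ in 𝓝[>] (0 : ℝ), ∀ w ∈ S.erase (M, n, v),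
        hw G w x + δ < hw G (M, n, v) x := by
      rw [Finset.eventually_all]
      intro w hwS
      have h1 := hlt w (Finset.mem_of_mem_erase hwS) (Finset.ne_of_mem_erase hwS)
      apply nhdsWithin_le_nhds
      have h2 : Tendsto (fun δ : ℝ => hw G w x + δ) (𝓝 0) (𝓝 (hw G w x + 0)) :=
        tendsto_const_nhds.add tendsto_id
      rw [add_zero] at h2
      exact h2.eventually_lt_const h1
    have e3 : ∀ᶠ δ in 𝓝[>] (0 : ℝ), 0 < δ := self_mem_nhdsWithin
    exact (e1.and (e2.and e3)).exists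
  refine ⟨X, N, M, n, v, hN, hM2, hW0.1, hW0.2, δ, ?_⟩
  have ev : ∀ᶠ x' in 𝓝 x, (bf G x' x' / 2 + 2 * η < hw G (M, n, v) x' ∧ ‖x'‖ ≤ ‖x1‖ + 1) ∧
      ∀ w ∈ S.erase (M, n, v), hw G w x' + δ < hw G (M, n, v) x' := by
    refine (Filter.Eventually.and ?_ ?_).and ?_
    · have hc : Continuous fun x' : Fin r → ℝ => bf G x' x' / 2 + 2 * η := by
        have := qf_cont (G := G)
        fun_prop
      exact (isOpen_lt hc (hw_cont _)).mem_nhds hx0'
    · have h2 : x ∈ Metric.ball x1 1 := hXb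
      filter_upwards [Metric.isOpen_ball.mem_nhds h2] with x' hx'
      rw [Metric.mem_ball, dist_eq_norm] at hx'
      have := norm_sub_norm_le x' x1
      linarith
    · rw [Finset.eventually_all]
      intro w hwS
      have hc : Continuous fun x' : Fin r → ℝ => hw G w x' + δ := by
        have := hw_cont (G := G) w
        fun_prop
      exact (isOpen_lt hc (hw_cont _)).mem_nhds (hδS w hwS)
  obtain ⟨ρ, hρ, hρP⟩ := nh x _ ev
  refine ⟨ρ, hδ0, hρ, ?_⟩
  intro x' hx'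
  obtain ⟨⟨h1, h2⟩, h3⟩ := hρP x' hx'
  have e0 : hgt G M n v x' = hw G (M, n, v) x' := rfl
  refine ⟨by rw [e0]; linarith, ?_⟩
  intro M' n' v' hM' hv' hne'
  have e1 : hgt G M' n' v' x' = hw G (M', n', v') x' := rfl
  rw [e0, e1]
  have hne2 : ((M', n', v') : Wl r) ≠ (M, n, v) := by
    intro e
    rw [Prod.mk.injEq, Prod.mk.injEq] at e
    exact hne' e
  by_cases hmem : ((M', n', v') : Wl r) ∈ S
  · exact (h3 _ (Finset.mem_erase.2 ⟨hne2, hmem⟩)).le
  · have h4 : hw G (M', n', v') x' < bf G x' x' / 2 + η := by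
      by_contra hcon
      push Not at hcon
      exact hmem ((hSm _).2 ⟨⟨hM', hv'⟩, x', h2, hcon⟩)
    linarith

end

end Pool.Agent.Y317.LE
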